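import Pool.Agent.H74Z.KHMain

/-- The Kepler-Heisenberg system is completely integrable of class `C^∞` on `{H ≠ 0}`, with `H`
and `p_θ` as two of the three first integrals. -/
theorem Pool.Agent.Results.MP_dd7031_mp.ASmoothIntegrable.result :
    ∃ F : Fin 3 → Pool.Agent.H74Z.KH.Phase → ℝ,
      F 0 = Pool.Agent.H74Z.KH.H ∧ F 1 = Pool.Agent.H74Z.KH.pTheta ∧
      Pool.Agent.H74Z.KH.SmoothLiouville F :=
  Pool.Agent.H74Z.KH.main
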